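import Mathlib

/-! The quantitative `L`-orthogonality inequality fails as soon as some `ε`-strong `Q`-measure
exists. -/

set_option autoImplicit false
open Filter Topology Set
open scoped BoundedContinuousFunction

namespace Pool.Agent.Results.MP_8a0948_an.InequalityFails

/-- The indicator function of `A ⊆ ω` as an element of `ℓ_∞`. -/
noncomputable def ind (A : Set ℕ) : ℕ →ᵇ ℝ :=
  BoundedContinuousFunction.ofNormedAddCommGroupDiscrete (A.indicator fun _ => (1 : ℝ)) 1 (by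
    intro k
    by_cases h : k ∈ A <;> simp [h])

/-- Finitely additive measures of bounded variation are identified with the elements `μ` of
`ℓ_∞^*`, via `μ(A) = μ(1_A)`. The predicate says that all values on sets are in `[0,1]` and that
finite sets have measure zero. -/
def IsMeasure01 (μ : StrongDual ℝ (ℕ →ᵇ ℝ)) : Prop :=
  (∀ A : Set ℕ, 0 ≤ μ (ind A) ∧ μ (ind A) ≤ 1) ∧ ∀ A : Set ℕ, A.Finite → μ (ind A) = 0

/-- Partitions of `ω` into nonempty finite sets. -/
def IsPartition (A : ℕ → Set ℕ) : Prop :=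
  (∀ n, (A n).Finite) ∧ (∀ n, (A n).Nonempty) ∧ (∀ m n, m ≠ n → Disjoint (A m) (A n)) ∧
    ⋃ n, A n = univ

/-- Selectors: at most one point in each part. -/
def IsSelector (A : ℕ → Set ℕ) (S : Set ℕ) : Prop := ∀ n, (S ∩ A n).Subsingleton

/-- `ε`-strong `Q`-measures. -/
def IsStrongQ (ε : ℝ) (μ : StrongDual ℝ (ℕ →ᵇ ℝ)) : Prop :=
  IsMeasure01 μ ∧ ∀ A, IsPartition A → ∃ S, IsSelector A S ∧ ε ≤ μ (ind S)

/-- The adjoint `T* : X* → ℓ_1^* = ℓ_∞` of `T : ℓ_1 → X`, `T e_n = x_n`: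
`T* φ = (φ(x_n))_n`. -/
noncomputable def adj {X : Type} [NormedAddCommGroup X] [NormedSpace ℝ X] (x : ℕ → X)
    (hx : ∀ n, ‖x n‖ ≤ 1) : StrongDual ℝ X →L[ℝ] (ℕ →ᵇ ℝ) :=
  LinearMap.mkContinuous
    { toFun := fun φ => BoundedContinuousFunction.ofNormedAddCommGroupDiscrete
        (fun n => φ (x n)) ‖φ‖ (fun n => (φ.le_opNorm _).trans
          (mul_le_of_le_one_right (norm_nonneg _) (hx n)))
      map_add' := fun φ ψ => by ext n; rfl
      map_smul' := fun c φ => by ext n; rfl } 1 (fun φ => by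
        rw [one_mul]
        refine (BoundedContinuousFunction.norm_le (norm_nonneg _)).mpr fun n => ?_
        exact (φ.le_opNorm _).trans (mul_le_of_le_one_right (norm_nonneg _) (hx n)))

/-- The `μ`-limit `T**(μ) ∈ X**`. -/
noncomputable def muLim {X : Type} [NormedAddCommGroup X] [NormedSpace ℝ X]
    (μ : StrongDual ℝ (ℕ →ᵇ ℝ)) (x : ℕ → X) (hx : ∀ n, ‖x n‖ ≤ 1) :
    StrongDual ℝ (StrongDual ℝ X) := μ.comp (adj x hx)

/-- `L`-orthogonality of a sequence in the unit ball. -/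
def LOrthogonal {X : Type} [NormedAddCommGroup X] (x : ℕ → X) : Prop :=
  ∀ z : X, Tendsto (fun n => ‖z + x n‖) atTop (𝓝 (1 + ‖z‖))

theorem adj_apply {X : Type} [NormedAddCommGroup X] [NormedSpace ℝ X] (x : ℕ → X)
    (hx : ∀ n, ‖x n‖ ≤ 1) (φ : StrongDual ℝ X) (n : ℕ) : adj x hx φ n = φ (x n) := rfl

/-! ### Positivity -/

theorem pos_aux (μ : StrongDual ℝ (ℕ →ᵇ ℝ)) (hμ : IsMeasure01 μ) (n : ℕ) :
    ∀ (M : ℝ) (f : ℕ →ᵇ ℝ), 0 ≤ M → (∀ k, 0 ≤ f k ∧ f k ≤ M) → -(‖μ‖ * (M / 2 ^ n)) ≤ μ f := by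
  induction n with
  | zero =>
    intro M f hM hf
    have h1 : ‖f‖ ≤ M := (BoundedContinuousFunction.norm_le hM).mpr fun k => by
      rw [Real.norm_eq_abs, abs_of_nonneg (hf k).1]
      exact (hf k).2
    have h2 := μ.le_opNorm f
    rw [Real.norm_eq_abs] at h2
    have h3 := (abs_le.mp h2).1
    have h4 : ‖μ‖ * ‖f‖ ≤ ‖μ‖ * M := by gcongr
    simp only [pow_zero, div_one]
    linarith
  | succ n ih =>
    intro M f hM hf
    set A : Set ℕ := {k | M / 2 ≤ f k} with hA
    set g : ℕ →ᵇ ℝ := f - (M / 2) • ind A with hg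
    have hgv : ∀ k, g k = f k - (M / 2) * A.indicator (fun _ => (1 : ℝ)) k := fun k => rfl
    have h1 := ih (M / 2) g (by positivity) (by
      intro k
      rw [hgv]
      by_cases hk : k ∈ A
      · rw [indicator_of_mem hk]
        have h2 : M / 2 ≤ f k := hk
        have h3 := (hf k).2
        constructor <;> linarith
      · rw [indicator_of_notMem hk]
        have h2 : ¬ (M / 2 ≤ f k) := hk
        have h3 := (hf k).1
        constructor <;> linarith)
    have h2 : μ f = μ g + (M / 2) * μ (ind A) := by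
      rw [hg, map_sub, map_smul, smul_eq_mul]
      ring
    have h3 : 0 ≤ (M / 2) * μ (ind A) := mul_nonneg (by positivity) (hμ.1 A).1
    have h4 : M / 2 / 2 ^ n = M / 2 ^ (n + 1) := by rw [pow_succ]; field_simp
    rw [h4] at h1
    linarith

theorem pos (μ : StrongDual ℝ (ℕ →ᵇ ℝ)) (hμ : IsMeasure01 μ) (f : ℕ →ᵇ ℝ) (hf : ∀ k, 0 ≤ f k) :
    0 ≤ μ f := by
  have h1 : ∀ n : ℕ, -(‖μ‖ * (‖f‖ / 2 ^ n)) ≤ μ f := fun n =>
    pos_aux μ hμ n ‖f‖ f (norm_nonneg _) fun k =>
      ⟨hf k, le_trans (le_abs_self _) (f.norm_coe_le_norm k)⟩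
  have h2 : Tendsto (fun n : ℕ => -(‖μ‖ * (‖f‖ / 2 ^ n))) atTop (𝓝 0) := by
    have h3 : Tendsto (fun n : ℕ => -(‖μ‖ * ‖f‖) * (1 / 2 : ℝ) ^ n) atTop
        (𝓝 (-(‖μ‖ * ‖f‖) * 0)) :=
      (tendsto_pow_atTop_nhds_zero_of_lt_one (by norm_num) (by norm_num)).const_mul _
    rw [mul_zero] at h3
    refine h3.congr fun n => ?_
    rw [div_pow, one_pow]
    ring
  exact le_of_tendsto' h2 h1

theorem norm_le_one (μ : StrongDual ℝ (ℕ →ᵇ ℝ)) (hμ : IsMeasure01 μ) : ‖μ‖ ≤ 1 := by
  refine ContinuousLinearMap.opNorm_le_bound _ zero_le_one fun f => ?_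
  rw [one_mul, Real.norm_eq_abs]
  have hv : ∀ k, (ind univ) k = 1 := fun k => by
    show (univ : Set ℕ).indicator (fun _ => (1 : ℝ)) k = 1
    simp
  have hb : ∀ k, |f k| ≤ ‖f‖ := fun k => f.norm_coe_le_norm k
  have h1 := pos μ hμ (‖f‖ • ind univ - f) (fun k => by
    show 0 ≤ ‖f‖ * (ind univ) k - f k
    rw [hv]
    have := (abs_le.mp (hb k)).2
    linarith)
  have h2 := pos μ hμ (‖f‖ • ind univ + f) (fun k => by
    show 0 ≤ ‖f‖ * (ind univ) k + f k
    rw [hv]
    have := (abs_le.mp (hb k)).1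
    linarith)
  rw [map_sub, map_smul, smul_eq_mul] at h1
  rw [map_add, map_smul, smul_eq_mul] at h2
  have h3 := (hμ.1 univ).2
  have h4 : ‖f‖ * μ (ind univ) ≤ ‖f‖ := mul_le_of_le_one_right (norm_nonneg _) h3
  exact abs_le.mpr ⟨by linarith, by linarith⟩

/-! ### Limits of averages over dyadic blocks -/

/-- Average over the block `{2^n - 1, …, 2^(n+1) - 2}`. -/
noncomputable def avg (n : ℕ) (f : ℕ →ᵇ ℝ) : ℝ :=
  (1 / 2 ^ n) * ∑ j ∈ Finset.range (2 ^ n), f (2 ^ n - 1 + j)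

theorem avg_abs (n : ℕ) (f : ℕ →ᵇ ℝ) : |avg n f| ≤ ‖f‖ := by
  unfold avg
  rw [abs_mul, abs_of_nonneg (by positivity : (0 : ℝ) ≤ 1 / 2 ^ n)]
  have h1 : |∑ j ∈ Finset.range (2 ^ n), f (2 ^ n - 1 + j)| ≤ 2 ^ n * ‖f‖ := by
    refine (Finset.abs_sum_le_sum_abs _ _).trans ?_
    refine (Finset.sum_le_sum fun j _ => f.norm_coe_le_norm (2 ^ n - 1 + j)).trans ?_
    rw [Finset.sum_const, Finset.card_range, nsmul_eq_mul]
    push_cast
    exact le_rfl
  calc 1 / 2 ^ n * |∑ j ∈ Finset.range (2 ^ n), f (2 ^ n - 1 + j)|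
      ≤ 1 / 2 ^ n * (2 ^ n * ‖f‖) := by gcongr
    _ = ‖f‖ := by field_simp

theorem exists_lam : ∃ lam : StrongDual ℝ (ℕ →ᵇ ℝ), ∀ f : ℕ →ᵇ ℝ,
    Tendsto (fun n => avg n f) (hyperfilter ℕ : Filter ℕ) (𝓝 (lam f)) := by
  have hex : ∀ f : ℕ →ᵇ ℝ, ∃ l : ℝ, Tendsto (fun n => avg n f) (hyperfilter ℕ : Filter ℕ) (𝓝 l) := by
    intro f
    have hc : IsCompact (Icc (-‖f‖) ‖f‖) := isCompact_Icc
    obtain ⟨l, _, hl⟩ := hc.ultrafilter_le_nhds ((hyperfilter ℕ).map fun n => avg n f) (by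
      rw [Ultrafilter.coe_map]
      refine Filter.le_principal_iff.mpr (Filter.mem_map.mpr ?_)
      refine Filter.univ_mem' fun n => ?_
      exact abs_le.mp (avg_abs n f))
    exact ⟨l, hl⟩
  choose l hl using hex
  have hadd : ∀ f g, l (f + g) = l f + l g := by
    intro f g
    refine tendsto_nhds_unique (hl (f + g)) (((hl f).add (hl g)).congr fun n => ?_)
    simp only [avg, BoundedContinuousFunction.coe_add, Pi.add_apply, Finset.sum_add_distrib]
    ring
  have hsmul : ∀ (c : ℝ) f, l (c • f) = c * l f := by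
    intro c f
    refine tendsto_nhds_unique (hl (c • f)) (((hl f).const_mul c).congr fun n => ?_)
    simp only [avg, BoundedContinuousFunction.coe_smul, smul_eq_mul, ← Finset.mul_sum]
    ring
  refine ⟨LinearMap.mkContinuous
    { toFun := l, map_add' := hadd, map_smul' := hsmul } 1 (fun f => ?_), hl⟩
  rw [one_mul]
  refine le_of_tendsto (hl f).norm (Filter.Eventually.of_forall fun n => ?_)
  exact avg_abs n f

/-! ### The space and the sequence -/

/-- The compact space `{±1} × ∏_n ({0, …, 2^n - 1} × {±1})`. -/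
abbrev K : Type := Bool × ((n : ℕ) → Fin (2 ^ n) × Bool)

/-- Signs. -/
def sg (b : Bool) : ℝ := if b then 1 else -1

theorem sg_abs (b : Bool) : |sg b| = 1 := by cases b <;> simp [sg]

/-- The block of `k`. -/
def nn (k : ℕ) : ℕ := Nat.log 2 (k + 1)

/-- The position of `k` in its block. -/
def jj (k : ℕ) : ℕ := k + 1 - 2 ^ nn k

theorem jj_lt (k : ℕ) : jj k < 2 ^ nn k := by
  have h1 : k + 1 < 2 ^ (nn k + 1) := Nat.lt_pow_succ_log_self (by norm_num) _
  have h2 : 2 ^ nn k ≤ k + 1 := Nat.pow_log_le_self 2 (by omega)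
  unfold jj
  rw [pow_succ] at h1
  omega

theorem nn_block (n j : ℕ) (hj : j < 2 ^ n) : nn (2 ^ n - 1 + j) = n ∧ jj (2 ^ n - 1 + j) = j := by
  have h0 : 1 ≤ 2 ^ n := Nat.one_le_two_pow
  have h1 : nn (2 ^ n - 1 + j) = n := by
    unfold nn
    rw [Nat.log_eq_iff (Or.inr ⟨by norm_num, by omega⟩)]
    constructor
    · omega
    · rw [pow_succ]
      omega
  refine ⟨h1, ?_⟩
  unfold jj
  rw [h1]
  omega

/-- Coordinates. -/
def pr (n : ℕ) (t : K) : ℕ × Bool := ((t.2 n).1.val, (t.2 n).2)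

theorem pr_cont (n : ℕ) : Continuous (pr n) := by
  have h1 : Continuous fun t : K => t.2 n := (continuous_apply n).comp continuous_snd
  have h2 : Continuous fun p : Fin (2 ^ n) × Bool => (p.1.val, p.2) :=
    continuous_of_discreteTopology
  exact h2.comp h1

/-- The sequence. -/
noncomputable def xs (k : ℕ) : C(K, ℝ) where
  toFun t := if (pr (nn k) t).1 = jj k then sg (pr (nn k) t).2 else -sg t.1
  continuous_toFun := by
    have h1 : Continuous fun t : K => (pr (nn k) t, t.1) := (pr_cont _).prodMk continuous_fst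
    have h2 : Continuous fun p : (ℕ × Bool) × Bool =>
        if p.1.1 = jj k then sg p.1.2 else -sg p.2 := continuous_of_discreteTopology
    exact h2.comp h1

/-- The limit direction. -/
noncomputable def x0 : C(K, ℝ) where
  toFun t := sg t.1
  continuous_toFun := by
    have h2 : Continuous sg := continuous_of_discreteTopology
    exact h2.comp continuous_fst

theorem xs_apply (k : ℕ) (t : K) :
    xs k t = if (pr (nn k) t).1 = jj k then sg (pr (nn k) t).2 else -sg t.1 := rfl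

theorem x0_apply (t : K) : x0 t = sg t.1 := rfl

theorem xs_norm (k : ℕ) : ‖xs k‖ ≤ 1 := by
  refine (ContinuousMap.norm_le _ zero_le_one).mpr fun t => ?_
  rw [xs_apply, Real.norm_eq_abs]
  split_ifs
  · rw [sg_abs]
  · rw [abs_neg, sg_abs]

theorem x0_norm : ‖x0‖ = 1 := by
  apply le_antisymm
  · refine (ContinuousMap.norm_le _ zero_le_one).mpr fun t => ?_
    rw [x0_apply, Real.norm_eq_abs, sg_abs]
  · have h := x0.norm_coe_le_norm (true, fun n => (⟨0, by positivity⟩, true))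
    rw [x0_apply, Real.norm_eq_abs, sg_abs] at h
    exact h

theorem block_norm (n : ℕ) :
    ‖∑ j ∈ Finset.range (2 ^ n), (xs (2 ^ n - 1 + j) + x0)‖ ≤ 2 := by
  refine (ContinuousMap.norm_le _ (by norm_num)).mpr fun t => ?_
  rw [ContinuousMap.sum_apply]
  have h1 : ∀ j ∈ Finset.range (2 ^ n), (xs (2 ^ n - 1 + j) + x0) t =
      if j = (pr n t).1 then sg (pr n t).2 + sg t.1 else 0 := by
    intro j hj
    obtain ⟨e1, e2⟩ := nn_block n j (Finset.mem_range.mp hj)
    rw [ContinuousMap.add_apply, xs_apply, x0_apply, e1, e2]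
    by_cases h : j = (pr n t).1
    · rw [if_pos h.symm, if_pos h]
    · rw [if_neg (Ne.symm h), if_neg h]
      ring
  rw [Finset.sum_congr rfl h1, Finset.sum_ite_eq' (Finset.range (2 ^ n)) (pr n t).1, if_pos]
  · rw [Real.norm_eq_abs]
    refine (abs_add_le _ _).trans ?_
    rw [sg_abs, sg_abs]
    norm_num
  · exact Finset.mem_range.mpr (t.2 n).1.isLt

theorem nn_tendsto (i : ℕ) : ∀ᶠ k in atTop, nn k ≠ i := by
  filter_upwards [Filter.eventually_ge_atTop (2 ^ (i + 1))] with k hk h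
  have h1 : k + 1 < 2 ^ (nn k + 1) := Nat.lt_pow_succ_log_self (by norm_num) _
  rw [h] at h1
  omega

theorem xs_orth : LOrthogonal xs := by
  intro z
  obtain ⟨t0, _, ht0⟩ := (isCompact_univ (X := K)).exists_isMaxOn
    ⟨(true, fun n => (⟨0, by positivity⟩, true)), mem_univ _⟩ (z.continuous.norm.continuousOn)
  have hz : ‖z‖ = |z t0| := by
    apply le_antisymm
    · refine (ContinuousMap.norm_le _ (abs_nonneg _)).mpr fun t => ?_
      exact ht0 (mem_univ t)
    · exact z.norm_coe_le_norm t0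
  obtain ⟨σ, hσ⟩ : ∃ σ : Bool, |z t0 + sg σ| = 1 + |z t0| := by
    rcases le_total 0 (z t0) with h | h
    · refine ⟨true, ?_⟩
      simp only [sg, if_true]
      rw [abs_of_nonneg h, abs_of_nonneg (by linarith)]
      ring
    · refine ⟨false, ?_⟩
      simp only [sg, Bool.false_eq_true, if_false]
      rw [abs_of_nonpos h, abs_of_nonpos (by linarith)]
      ring
  set tk : ℕ → K := fun k => (t0.1, Function.update t0.2 (nn k) (⟨jj k, jj_lt k⟩, σ)) with htk
  have hlim : Tendsto tk atTop (𝓝 t0) := by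
    have h1 : Tendsto (fun k => Function.update t0.2 (nn k) (⟨jj k, jj_lt k⟩, σ)) atTop
        (𝓝 t0.2) := by
      rw [tendsto_pi_nhds]
      intro i
      refine tendsto_const_nhds.congr' ?_
      filter_upwards [nn_tendsto i] with k hk
      rw [Function.update_of_ne (Ne.symm hk)]
    exact (tendsto_const_nhds (x := t0.1)).prodMk_nhds h1
  have hpr : ∀ k, pr (nn k) (tk k) = (jj k, σ) := by
    intro k
    simp [pr, htk]
  have hval : ∀ k, xs k (tk k) = sg σ := by
    intro k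
    rw [xs_apply, hpr]
    simp
  have hlow : Tendsto (fun k => |z (tk k) + sg σ|) atTop (𝓝 (1 + ‖z‖)) := by
    rw [hz, ← hσ]
    exact (((z.continuous.tendsto t0).comp hlim).add_const _).abs
  refine tendsto_of_tendsto_of_tendsto_of_le_of_le hlow tendsto_const_nhds (fun k => ?_)
    (fun k => ?_)
  · have h := (z + xs k).norm_coe_le_norm (tk k)
    rw [ContinuousMap.add_apply, hval, Real.norm_eq_abs] at h
    exact h
  · refine (norm_add_le _ _).trans ?_
    have := xs_norm k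
    linarith

/-- The limit along the averages is `-x0`. -/
theorem lam_lim (lam : StrongDual ℝ (ℕ →ᵇ ℝ)) (hlam : ∀ f : ℕ →ᵇ ℝ,
    Tendsto (fun n => avg n f) (hyperfilter ℕ : Filter ℕ) (𝓝 (lam f))) :
    muLim lam xs xs_norm = -NormedSpace.inclusionInDoubleDual ℝ C(K, ℝ) x0 := by
  ext φ
  have h1 := hlam (adj xs xs_norm φ)
  have h2 : ∀ n, avg n (adj xs xs_norm φ) =
      (1 / 2 ^ n) * φ (∑ j ∈ Finset.range (2 ^ n), (xs (2 ^ n - 1 + j) + x0)) - φ x0 := by
    intro n
    unfold avg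
    simp only [adj_apply]
    rw [map_sum]
    simp only [map_add]
    rw [Finset.sum_add_distrib, Finset.sum_const, Finset.card_range, nsmul_eq_mul]
    push_cast
    field_simp
    ring
  have h3 : Tendsto (fun n : ℕ => (1 / 2 ^ n) *
      φ (∑ j ∈ Finset.range (2 ^ n), (xs (2 ^ n - 1 + j) + x0))) atTop (𝓝 0) := by
    have h4 : Tendsto (fun n : ℕ => (1 / 2 : ℝ) ^ n * (‖φ‖ * 2)) atTop (𝓝 (0 * (‖φ‖ * 2))) :=
      (tendsto_pow_atTop_nhds_zero_of_lt_one (by norm_num) (by norm_num)).mul_const _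
    rw [zero_mul] at h4
    refine squeeze_zero_norm (fun n => ?_) h4
    rw [norm_mul, Real.norm_of_nonneg (by positivity : (0 : ℝ) ≤ 1 / 2 ^ n), div_pow, one_pow]
    gcongr
    refine (φ.le_opNorm _).trans ?_
    gcongr
    exact block_norm n
  have h5 : Tendsto (fun n : ℕ => avg n (adj xs xs_norm φ)) (hyperfilter ℕ : Filter ℕ)
      (𝓝 (0 - φ x0)) := by
    simp only [h2]
    exact ((h3.mono_left Nat.hyperfilter_le_atTop).sub tendsto_const_nhds)
  have h6 := tendsto_nhds_unique h1 h5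
  show lam (adj xs xs_norm φ) = _
  rw [h6]
  simp

/-- The negated form of Q1 holds if and only if some `ε`-strong `Q`-measure (`ε > 0`) exists. In
other words, the inequality of Q1 holds in no case except the vacuous one. -/
theorem result :
    (∃ ε > 0, ∃ μ : StrongDual ℝ (ℕ →ᵇ ℝ), IsStrongQ ε μ ∧
      ∃ (X : Type) (_ : NormedAddCommGroup X) (_ : NormedSpace ℝ X) (_ : CompleteSpace X)
        (x : ℕ → X) (hx : ∀ n, ‖x n‖ ≤ 1), LOrthogonal x ∧
        ∃ z : X, ‖NormedSpace.inclusionInDoubleDual ℝ X z + muLim μ x hx‖ <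
          ‖z‖ + ε * ‖muLim μ x hx‖) ↔
    ∃ ε > 0, ∃ μ : StrongDual ℝ (ℕ →ᵇ ℝ), IsStrongQ ε μ := by
  constructor
  · rintro ⟨ε, hε, μ, hμ, _⟩
    exact ⟨ε, hε, μ, hμ⟩
  rintro ⟨ε, hε, μ, hμ⟩
  obtain ⟨lam, hlam⟩ := exists_lam
  have hindavg : ∀ n (A : Set ℕ), 0 ≤ avg n (ind A) ∧ avg n (ind A) ≤ 1 := by
    intro n A
    have h0 : 0 ≤ avg n (ind A) := by
      unfold avg
      refine mul_nonneg (by positivity) (Finset.sum_nonneg fun j _ => ?_)
      show 0 ≤ A.indicator (fun _ => (1 : ℝ)) _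
      exact indicator_nonneg (fun _ _ => zero_le_one) _
    refine ⟨h0, ?_⟩
    have h1 := (le_abs_self _).trans (avg_abs n (ind A))
    refine h1.trans ((BoundedContinuousFunction.norm_le zero_le_one).mpr fun k => ?_)
    show ‖A.indicator (fun _ => (1 : ℝ)) k‖ ≤ 1
    by_cases h : k ∈ A <;> simp [h]
  have hlamI : ∀ A : Set ℕ, 0 ≤ lam (ind A) ∧ lam (ind A) ≤ 1 := fun A =>
    ⟨ge_of_tendsto' (hlam (ind A)) fun n => (hindavg n A).1,
      le_of_tendsto' (hlam (ind A)) fun n => (hindavg n A).2⟩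
  have hlamF : ∀ A : Set ℕ, A.Finite → lam (ind A) = 0 := by
    intro A hA
    obtain ⟨B, hB⟩ := hA.bddAbove
    have h1 : Tendsto (fun n => avg n (ind A)) atTop (𝓝 0) := by
      refine tendsto_const_nhds.congr' ?_
      filter_upwards [Filter.eventually_ge_atTop (B + 2)] with n hn
      unfold avg
      rw [Finset.sum_eq_zero, mul_zero]
      intro j _
      show A.indicator (fun _ => (1 : ℝ)) _ = 0
      apply indicator_of_notMem
      intro hmem
      have h2 := hB hmem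
      have h3 : n < 2 ^ n := Nat.lt_two_pow_self
      omega
    exact tendsto_nhds_unique (hlam (ind A)) (h1.mono_left Nat.hyperfilter_le_atTop)
  set m : StrongDual ℝ (ℕ →ᵇ ℝ) := (1 / 2 : ℝ) • (μ + lam) with hm
  have hmv : ∀ f, m f = 1 / 2 * (μ f + lam f) := fun f => rfl
  refine ⟨ε / 2, by positivity, m, ⟨⟨fun A => ?_, fun A hA => ?_⟩, fun A hA => ?_⟩, C(K, ℝ),
    inferInstance, inferInstance, inferInstance, xs, xs_norm, xs_orth, (1 / 2 : ℝ) • x0, ?_⟩
  · have h1 := hμ.1.1 A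
    have h2 := hlamI A
    rw [hmv]
    constructor <;> linarith [h1.1, h1.2, h2.1, h2.2]
  · rw [hmv, hμ.1.2 A hA, hlamF A hA]
    ring
  · obtain ⟨S, hS1, hS2⟩ := hμ.2 A hA
    refine ⟨S, hS1, ?_⟩
    rw [hmv]
    have := (hlamI S).1
    linarith
  · have e1 : muLim m xs xs_norm = (1 / 2 : ℝ) • (muLim μ xs xs_norm + muLim lam xs xs_norm) := rfl
    have e2 : NormedSpace.inclusionInDoubleDual ℝ C(K, ℝ) ((1 / 2 : ℝ) • x0) +
        muLim m xs xs_norm = (1 / 2 : ℝ) • muLim μ xs xs_norm := by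
      rw [e1, lam_lim lam hlam, map_smul]
      module
    have hle : ‖muLim μ xs xs_norm‖ ≤ 1 := by
      refine (ContinuousLinearMap.opNorm_comp_le _ _).trans ?_
      have h1 := norm_le_one μ hμ.1
      have h2 : ‖adj xs xs_norm‖ ≤ 1 := LinearMap.mkContinuous_norm_le _ zero_le_one _
      calc ‖μ‖ * ‖adj xs xs_norm‖ ≤ 1 * 1 := by gcongr
        _ = 1 := one_mul 1
    have hne : muLim m xs xs_norm ≠ 0 := by
      intro h0
      set t1 : K := (true, fun n => (⟨0, by positivity⟩, false)) with ht1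
      set φ : StrongDual ℝ C(K, ℝ) := ContinuousMap.evalCLM ℝ t1 with hφ
      have h1 : adj xs xs_norm φ = -ind univ := by
        ext k
        rw [adj_apply]
        show xs k t1 = -(univ : Set ℕ).indicator (fun _ => (1 : ℝ)) k
        rw [xs_apply]
        simp [pr, ht1, sg]
      have h2 : muLim m xs xs_norm φ = 0 := by rw [h0]; rfl
      have h3 : muLim m xs xs_norm φ = -m (ind univ) := by
        show m (adj xs xs_norm φ) = _
        rw [h1, map_neg]
      have h4 : lam (ind univ) = 1 := by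
        have h5 : ∀ n, avg n (ind univ) = 1 := by
          intro n
          unfold avg
          have : ∀ j ∈ Finset.range (2 ^ n), (ind univ) (2 ^ n - 1 + j) = (1 : ℝ) := by
            intro j _
            show (univ : Set ℕ).indicator (fun _ => (1 : ℝ)) _ = 1
            simp
          rw [Finset.sum_congr rfl this, Finset.sum_const, Finset.card_range, nsmul_eq_mul]
          push_cast
          field_simp
        have h6 := hlam (ind univ)
        simp only [h5] at h6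
        exact tendsto_nhds_unique h6 tendsto_const_nhds
      rw [h3, hmv, h4] at h2
      have := (hμ.1.1 univ).1
      linarith
    have hpos : 0 < ‖muLim m xs xs_norm‖ := by
      rcases (norm_nonneg (muLim m xs xs_norm)).lt_or_eq with h | h
      · exact h
      · exact absurd (ContinuousLinearMap.opNorm_zero_iff _ |>.mp h.symm) hne
    have h7 : ‖(1 / 2 : ℝ)‖ = 1 / 2 := by norm_num
    have h8 : 0 < ε / 2 * ‖muLim m xs xs_norm‖ := mul_pos (by positivity) hpos
    have h9 : ‖(1 / 2 : ℝ) • muLim μ xs xs_norm‖ ≤ ‖(1 / 2 : ℝ)‖ * ‖muLim μ xs xs_norm‖ :=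
      ContinuousLinearMap.opNorm_smul_le _ _
    have h10 : ‖(1 / 2 : ℝ) • x0‖ = 1 / 2 := by rw [norm_smul, x0_norm, h7, mul_one]
    rw [h7] at h9
    rw [e2, h10]
    have h11 : 1 / 2 * ‖muLim μ xs xs_norm‖ ≤ 1 / 2 * 1 := by gcongr
    linarith

end Pool.Agent.Results.MP_8a0948_an.InequalityFails
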